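import Pool.Agent.Lib.P901b45e.Excess

/-!
From a solution for `h(S) = f(S) - |S|` to a vertex of the polymatroid of `f` (MP_901b45_co).
-/

namespace Pool.Agent.P901b45e

open Finset

variable {n : ℕ} {f : Finset (Fin n) → ℤ}

/-- `h(S) = f(S) - |S|` -/
theorem sub_of (h0 : f ∅ = 0) (hm : Monotone f)
    (hs : ∀ A B : Finset (Fin n), f (A ∪ B) + f (A ∩ B) ≤ f A + f B)
    (h2 : ∀ e, f {e} ≤ 2) (h1 : ∀ A : Finset (Fin n), (A.card : ℤ) ≤ f A) :
    Sub univ (fun A => f A - A.card) := by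
  refine ⟨by simp [h0], fun A _ => by have := h1 A; linarith, ?_, ?_, ?_⟩
  · intro A _ B _
    have e1 := hs A B
    have e2 : ((A ∪ B).card : ℤ) + (A ∩ B).card = A.card + B.card := by
      exact_mod_cast card_union_add_card_inter A B
    linarith
  · intro A _ e _
    by_cases he : e ∈ A
    · rw [insert_eq_of_mem he]; linarith
    · have e1 := hs A {e}
      have e2 : A ∩ {e} = ∅ := by
        ext y; simp only [mem_inter, mem_singleton, notMem_empty, iff_false, not_and]
        rintro hy rfl; exact he hy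
      have e3 : A ∪ {e} = insert e A := by
        ext y; simp only [mem_union, mem_singleton, mem_insert]; tauto
      rw [e2, e3, h0] at e1
      rw [card_insert_of_notMem he]
      have := h2 e
      push_cast
      linarith
  · intro A _ e _
    by_cases he : e ∈ A
    · rw [insert_eq_of_mem he]; linarith
    · rw [card_insert_of_notMem he]
      have := hm (subset_insert e A)
      push_cast
      linarith

/-- the vertex -/
theorem extreme_of_sol (h0 : f ∅ = 0)
    (hs : ∀ A B : Finset (Fin n), f (A ∪ B) + f (A ∩ B) ≤ f A + f B)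
    (h2 : ∀ e, f {e} ≤ 2) {x : Fin n → ℤ} (hx : Sol univ (fun A => f A - A.card) x) :
    ∃ v ∈ Set.extremePoints ℝ
          {x : Fin n → ℝ | (∀ i, 0 ≤ x i) ∧
            ∀ A : Finset (Fin n), ∑ i ∈ A, x i ≤ (f A : ℝ)},
        (∀ i, 0 ≤ 2 - v i) ∧
          ∀ A : Finset (Fin n), ∑ i ∈ A, (2 - v i) ≤ (f A : ℝ) := by
  classical
  let v : Fin n → ℝ := fun i => 1 + (x i : ℝ)
  have hv : ∀ A : Finset (Fin n), ∑ i ∈ A, v i = (A.card : ℝ) + ((∑ i ∈ A, x i : ℤ) : ℝ) := by
    intro A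
    simp only [v]
    rw [Finset.sum_add_distrib]
    push_cast
    simp
  have hle : ∀ A : Finset (Fin n), ∑ i ∈ A, v i ≤ (f A : ℝ) := by
    intro A
    rw [hv]
    have h1 := hx.le A (subset_univ _)
    have h3 : ((∑ i ∈ A, x i : ℤ) : ℝ) ≤ ((f A - A.card : ℤ) : ℝ) := by exact_mod_cast h1
    push_cast at h3 ⊢
    linarith
  have hx1 : ∀ i, x i ≤ 1 ∧ -x i ≤ 1 := by
    intro i
    have h1 := hx.le {i} (subset_univ _)
    have h3 := hx.neg_le {i} (subset_univ _)
    simp only [sum_singleton, card_singleton] at h1 h3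
    have := h2 i
    push_cast at h1 h3
    constructor <;> linarith
  have hpos : ∀ i, 0 ≤ v i ∧ 0 ≤ 2 - v i := by
    intro i
    have h1 : ((x i : ℤ) : ℝ) ≤ 1 := by exact_mod_cast (hx1 i).1
    have h3 : (-(1 : ℝ)) ≤ ((x i : ℤ) : ℝ) := by
      have := (hx1 i).2
      have h4 : -1 ≤ x i := by linarith
      exact_mod_cast h4
    simp only [v]
    constructor <;> linarith
  have hle' : ∀ A : Finset (Fin n), ∑ i ∈ A, (2 - v i) ≤ (f A : ℝ) := by
    intro A
    have e : ∑ i ∈ A, (2 - v i) = 2 * (A.card : ℝ) - ∑ i ∈ A, v i := by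
      rw [Finset.sum_sub_distrib]; simp; ring
    rw [e, hv]
    have h1 := hx.neg_le A (subset_univ _)
    have h3 : ((-∑ i ∈ A, x i : ℤ) : ℝ) ≤ ((f A - A.card : ℤ) : ℝ) := by exact_mod_cast h1
    push_cast at h3 ⊢
    linarith
  refine ⟨v, ⟨⟨fun i => (hpos i).1, hle⟩, ?_⟩, fun i => (hpos i).2, hle'⟩
  intro a ha b hb hab
  -- tight sets
  have htight : ∀ X : Finset (Fin n), ∑ e ∈ X, x e = f X - X.card → ∑ i ∈ X, v i = (f X : ℝ) := by
    intro X hX
    rw [hv, hX]
    push_cast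
    ring
  obtain ⟨s, t, hs0, ht0, hst, hvst⟩ := hab
  have hva : ∀ i, v i = s * a i + t * b i := by
    intro i
    have := congrFun hvst i
    simp only [Pi.add_apply, Pi.smul_apply, smul_eq_mul] at this
    exact this.symm
  have haX : ∀ X : Finset (Fin n), ∑ i ∈ X, v i = (f X : ℝ) → ∑ i ∈ X, a i = (f X : ℝ) := by
    intro X hX
    have e : ∑ i ∈ X, v i = s * ∑ i ∈ X, a i + t * ∑ i ∈ X, b i := by
      rw [Finset.mul_sum, Finset.mul_sum, ← Finset.sum_add_distrib]
      exact Finset.sum_congr rfl (fun i _ => hva i)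
    have h3 := ha.2 X
    have h4 := hb.2 X
    by_contra hne
    have h5 : ∑ i ∈ X, a i < (f X : ℝ) := lt_of_le_of_ne h3 hne
    have h6 : s * ∑ i ∈ X, a i < s * (f X : ℝ) := mul_lt_mul_of_pos_left h5 hs0
    have h7 : t * ∑ i ∈ X, b i ≤ t * (f X : ℝ) := mul_le_mul_of_nonneg_left h4 ht0.le
    have h8 : s * (f X : ℝ) + t * (f X : ℝ) = (f X : ℝ) := by rw [← add_mul, hst, one_mul]
    rw [hX] at e
    linarith
  -- the family of tight sets
  let F : Finset (Finset (Fin n)) := univ.filter (fun X => ∑ i ∈ X, v i = (f X : ℝ))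
  have hF : ∀ X, X ∈ F ↔ ∑ i ∈ X, v i = (f X : ℝ) := fun X => by simp [F]
  have hlat : ∀ X ∈ F, ∀ Y ∈ F, X ∩ Y ∈ F ∧ X ∪ Y ∈ F := by
    intro X hX Y hY
    rw [hF] at hX hY
    have e1 : (f (X ∪ Y) : ℝ) + f (X ∩ Y) ≤ f X + f Y := by exact_mod_cast hs X Y
    have e2 : ∑ i ∈ X ∪ Y, v i + ∑ i ∈ X ∩ Y, v i = ∑ i ∈ X, v i + ∑ i ∈ Y, v i :=
      Finset.sum_union_inter
    have e3 := hle (X ∪ Y)
    have e4 := hle (X ∩ Y)
    rw [hF, hF]
    constructor <;> linarith
  have hempty : ∅ ∈ F := by rw [hF]; simp [h0]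
  have huniv : univ ∈ F := by
    rw [hF]
    exact htight _ hx.tight
  -- smallest tight set containing `i`
  have hmin : ∀ i : Fin n, ∃ D ∈ F, i ∈ D ∧ ∀ X ∈ F, i ∈ X → D ⊆ X := by
    intro i
    obtain ⟨D, hD, hDmin⟩ := (F.filter (fun X => i ∈ X)).exists_min_image (fun X => X.card)
      ⟨univ, mem_filter.2 ⟨huniv, mem_univ _⟩⟩
    obtain ⟨hDF, hiD⟩ := mem_filter.1 hD
    refine ⟨D, hDF, hiD, fun X hX hiX => ?_⟩
    have h3 := hDmin (D ∩ X) (mem_filter.2 ⟨(hlat D hDF X hX).1, mem_inter.2 ⟨hiD, hiX⟩⟩)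
    have h4 : D ∩ X = D := eq_of_subset_of_card_le inter_subset_left h3
    rw [← h4]
    exact inter_subset_right
  have herase : ∀ i D, D ∈ F → i ∈ D → (∀ X ∈ F, i ∈ X → D ⊆ X) → D.erase i ∈ F := by
    intro i D hD hiD hDmin
    have key : ∀ S ⊆ D.erase i, ∃ Y ∈ F, S ⊆ Y ∧ Y ⊆ D.erase i := by
      intro S
      induction S using Finset.induction_on with
      | empty => intro _; exact ⟨∅, hempty, empty_subset _, empty_subset _⟩
      | insert j S hjS ih =>
        intro hsub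
        obtain ⟨Y, hY, hSY, hYD⟩ := ih (fun y hy => hsub (mem_insert_of_mem hy))
        have hj := mem_erase.1 (hsub (mem_insert_self j S))
        obtain ⟨X, -, hX, hX'⟩ := hx.sep i (mem_univ _) j (mem_univ _) (Ne.symm hj.1)
        have hXF : X ∈ F := (hF X).2 (htight X hX)
        rcases hX' with ⟨h3, h4⟩ | ⟨h3, h4⟩
        · exact absurd (hDmin X hXF h3 hj.2) h4
        · refine ⟨Y ∪ (X ∩ D), (hlat _ hY _ (hlat _ hXF _ hD).1).2, ?_, ?_⟩
          · intro y hy
            rcases mem_insert.1 hy with rfl | h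
            · exact mem_union_right _ (mem_inter.2 ⟨h3, hj.2⟩)
            · exact mem_union_left _ (hSY h)
          · intro y hy
            rcases mem_union.1 hy with h | h
            · exact hYD h
            · refine mem_erase.2 ⟨fun e => h4 (e ▸ (mem_inter.1 h).1), (mem_inter.1 h).2⟩
    obtain ⟨Y, hY, h3, h4⟩ := key _ (Subset.refl _)
    rwa [Subset.antisymm h4 h3] at hY
  funext i
  obtain ⟨D, hD, hiD, hDmin⟩ := hmin i
  have h3 := herase i D hD hiD hDmin
  have h4 := haX D ((hF D).1 hD)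
  have h5 := haX _ ((hF _).1 h3)
  have h6 := (hF D).1 hD
  have h7 := (hF _).1 h3
  have h8 := Finset.add_sum_erase D a hiD
  have h9 := Finset.add_sum_erase D v hiD
  linarith

end Pool.Agent.P901b45e
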