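import Mathlib

/-!
A lemma on crossing families, used for Frank's question on complementary vertices of integer
2-polymatroids (MP_901b45_co).
-/

namespace Pool.Agent.P901b45e

open Finset

variable {α : Type*} [DecidableEq α]

/-- a crossing family on `G` with all singletons and their complements, in which every two disjoint
pairs are separated by a member that contains one of them -/
structure Cross (G : Finset α) (M : Finset α → Prop) : Prop where
  sub : ∀ X, M X → X ⊆ G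
  inter : ∀ X Y, M X → M Y → (X ∩ Y).Nonempty → (∃ r ∈ G, r ∉ X ∧ r ∉ Y) → M (X ∩ Y)
  union : ∀ X Y, M X → M Y → (X ∩ Y).Nonempty → (∃ r ∈ G, r ∉ X ∧ r ∉ Y) → M (X ∪ Y)
  single : ∀ a ∈ G, M {a}
  cosingle : ∀ a ∈ G, M (G.erase a)
  four : ∀ p ∈ G, ∀ p' ∈ G, ∀ q ∈ G, ∀ q' ∈ G, p ≠ p' → q ≠ q' → p ≠ q → p ≠ q' → p' ≠ q →
    p' ≠ q' → ∃ X, M X ∧ ((p ∈ X ∧ p' ∈ X ∧ q ∉ X ∧ q' ∉ X) ∨
      (q ∈ X ∧ q' ∈ X ∧ p ∉ X ∧ p' ∉ X))

/-- two members `C ⊂ C ∪ T` of the family with nothing between -/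
structure Gap (G : Finset α) (M : Finset α → Prop) (C T : Finset α) : Prop where
  hC : C.Nonempty
  disj : Disjoint C T
  hR : ∃ r ∈ G, r ∉ C ∧ r ∉ T
  mC : M C
  mCT : M (C ∪ T)
  nb : ∀ X, M X → C ⊆ X → X ⊆ C ∪ T → X = C ∨ X = C ∪ T

variable {G : Finset α} {M : Finset α → Prop}

/-- two elements which are not separated between `A` and `B` lie in a gap between `A` and `B` -/
theorem gap_exists (hM : Cross G M) {A B : Finset α} (hA : M A) (hB : M B) (hAB : A ⊆ B)
    (hA0 : A.Nonempty) (hB0 : ∃ r ∈ G, r ∉ B) {i j : α} (hi : i ∈ B) (hiA : i ∉ A)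
    (hns : ∀ X, M X → A ⊆ X → X ⊆ B → (i ∈ X ↔ j ∈ X)) :
    ∃ C T, Gap G M C T ∧ A ⊆ C ∧ C ∪ T ⊆ B ∧ i ∈ T ∧ j ∈ T := by
  classical
  obtain ⟨a, ha⟩ := hA0
  obtain ⟨r, hrG, hrB⟩ := hB0
  -- the smallest member between `A` and `B` that contains `i`
  let F : Finset (Finset α) := B.powerset.filter (fun X => M X ∧ A ⊆ X ∧ i ∈ X)
  have hF : B ∈ F := by
    simp only [F, mem_filter, mem_powerset]
    exact ⟨Subset.refl _, hB, hAB, hi⟩
  obtain ⟨D, hD, hDmin⟩ := F.exists_min_image (fun X => X.card) ⟨B, hF⟩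
  simp only [F, mem_filter, mem_powerset] at hD
  obtain ⟨hDB, hMD, hAD, hiD⟩ := hD
  have hDle : ∀ X, M X → A ⊆ X → X ⊆ B → i ∈ X → D ⊆ X := by
    intro X hX hAX hXB hiX
    have h1 : M (D ∩ X) := hM.inter D X hMD hX ⟨a, mem_inter.2 ⟨hAD ha, hAX ha⟩⟩
      ⟨r, hrG, fun h => hrB (hDB h), fun h => hrB (hXB h)⟩
    have h2 : D ∩ X ∈ F := by
      simp only [F, mem_filter, mem_powerset]
      exact ⟨inter_subset_left.trans hDB, h1, subset_inter hAD hAX, mem_inter.2 ⟨hiD, hiX⟩⟩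
    have h3 := hDmin _ h2
    have h4 : D ∩ X = D := eq_of_subset_of_card_le inter_subset_left h3
    rw [← h4]
    exact inter_subset_right
  -- the largest member below `D` that does not contain `i`
  let F' : Finset (Finset α) := D.powerset.filter (fun X => M X ∧ A ⊆ X ∧ i ∉ X)
  have hF' : A ∈ F' := by
    simp only [F', mem_filter, mem_powerset]
    exact ⟨hAD, hA, Subset.refl _, hiA⟩
  obtain ⟨C, hC, hCmax⟩ := F'.exists_max_image (fun X => X.card) ⟨A, hF'⟩
  simp only [F', mem_filter, mem_powerset] at hC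
  obtain ⟨hCD, hMC, hAC, hiC⟩ := hC
  have hCge : ∀ X, M X → A ⊆ X → X ⊆ D → i ∉ X → X ⊆ C := by
    intro X hX hAX hXD hiX
    have h1 : M (C ∪ X) := hM.union C X hMC hX ⟨a, mem_inter.2 ⟨hAC ha, hAX ha⟩⟩
      ⟨r, hrG, fun h => hrB (hDB (hCD h)), fun h => hrB (hDB (hXD h))⟩
    have h2 : C ∪ X ∈ F' := by
      simp only [F', mem_filter, mem_powerset]
      exact ⟨union_subset hCD hXD, h1, hAC.trans subset_union_left, by
        simp only [mem_union, not_or]; exact ⟨hiC, hiX⟩⟩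
    have h3 := hCmax _ h2
    have h4 : C = C ∪ X := eq_of_subset_of_card_le subset_union_left h3
    rw [h4]
    exact subset_union_right
  have hjD : j ∈ D := (hns D hMD hAD hDB).1 hiD
  have hjC : j ∉ C := fun h => hiC ((hns C hMC hAC (hCD.trans hDB)).2 h)
  have hCT : C ∪ (D \ C) = D := union_sdiff_of_subset hCD
  refine ⟨C, D \ C, ⟨⟨a, hAC ha⟩, disjoint_sdiff, ⟨r, hrG, fun h => hrB (hDB (hCD h)), fun h =>
    hrB (hDB (mem_sdiff.1 h).1)⟩, hMC, by rw [hCT]; exact hMD, ?_⟩, hAC, by rw [hCT]; exact hDB,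
    mem_sdiff.2 ⟨hiD, hiC⟩, mem_sdiff.2 ⟨hjD, hjC⟩⟩
  intro X hX hCX hXD
  rw [hCT] at hXD ⊢
  by_cases hiX : i ∈ X
  · exact Or.inr (Subset.antisymm hXD (hDle X hX (hAC.trans hCX) (hXD.trans hDB) hiX))
  · exact Or.inl (Subset.antisymm (hCge X hX (hAC.trans hCX) hXD hiX) hCX)

/-- all sets `R ∪ S` with `S ⊆ T` are members, for a gap `(C, T)` with rest `R` -/
theorem gap_fact (hM : Cross G M) {C T : Finset α} (hg : Gap G M C T) {i j : α} (hi : i ∈ T)
    (hj : j ∈ T) (hij : i ≠ j) : ∀ S ⊆ T, M (G \ (C ∪ T) ∪ S) := by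
  classical
  have hTG : T ⊆ G := subset_union_right.trans (hM.sub _ hg.mCT)
  have hCG : C ⊆ G := subset_union_left.trans (hM.sub _ hg.mCT)
  obtain ⟨c0, hc0⟩ := hg.hC
  obtain ⟨r0, hr0G, hr0C, hr0T⟩ := hg.hR
  have hdisj : ∀ {y}, y ∈ C → y ∉ T := fun {y} h h' => (disjoint_left.1 hg.disj) h h'
  -- step 1
  have s1 : ∀ c ∈ C, ∀ r ∈ G, r ∉ C → r ∉ T → ∀ t ∈ T, ∀ t' ∈ T, t ≠ t' →
      ∃ X, M X ∧ t' ∈ X ∧ r ∈ X ∧ c ∉ X ∧ t ∉ X := by
    intro c hc r hr hrC hrT t ht t' ht' htt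
    have hct : c ≠ t := fun h => hdisj hc (h ▸ ht)
    have hct' : c ≠ t' := fun h => hdisj hc (h ▸ ht')
    have hcr : c ≠ r := fun h => hrC (h ▸ hc)
    have htr : t ≠ r := fun h => hrT (h ▸ ht)
    have htr' : t' ≠ r := fun h => hrT (h ▸ ht')
    obtain ⟨X, hX, hX'⟩ := hM.four c (hCG hc) t (hTG ht) t' (hTG ht') r hr hct htr' hct' hcr htt htr
    rcases hX' with ⟨h1, h2, h3, h4⟩ | ⟨h1, h2, h3, h4⟩
    · exfalso
      have m1 : M (X ∩ (C ∪ T)) := hM.inter _ _ hX hg.mCT
        ⟨c, mem_inter.2 ⟨h1, mem_union_left _ hc⟩⟩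
        ⟨r, hr, h4, by simp only [mem_union, not_or]; exact ⟨hrC, hrT⟩⟩
      have m2 : M (X ∩ (C ∪ T) ∪ C) := hM.union _ _ m1 hg.mC
        ⟨c, mem_inter.2 ⟨mem_inter.2 ⟨h1, mem_union_left _ hc⟩, hc⟩⟩
        ⟨r, hr, fun h => h4 (mem_inter.1 h).1, hrC⟩
      rcases hg.nb _ m2 subset_union_right
        (union_subset inter_subset_right subset_union_left) with h | h
      · have : t ∈ C := by
          rw [← h]
          exact mem_union_left _ (mem_inter.2 ⟨h2, mem_union_right _ ht⟩)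
        exact hdisj this ht
      · have h5 : t' ∈ X ∩ (C ∪ T) ∪ C := by
          rw [h]
          exact mem_union_right _ ht'
        rcases mem_union.1 h5 with h6 | h6
        · exact h3 (mem_inter.1 h6).1
        · exact hdisj h6 ht'
    · exact ⟨X, hX, h1, h2, h3, h4⟩
  -- step 2
  have s2 : ∀ r ∈ G, r ∉ C → r ∉ T → ∀ t ∈ T, ∀ t' ∈ T, t ≠ t' →
      ∃ X, M X ∧ t' ∈ X ∧ r ∈ X ∧ t ∉ X ∧ Disjoint X C := by
    intro r hr hrC hrT t ht t' ht' htt
    have key : ∀ D ⊆ C, ∃ X, M X ∧ t' ∈ X ∧ r ∈ X ∧ t ∉ X ∧ Disjoint X D := by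
      intro D
      induction D using Finset.induction_on with
      | empty =>
        intro _
        obtain ⟨X, h1, h2, h3, _, h5⟩ := s1 c0 hc0 r hr hrC hrT t ht t' ht' htt
        exact ⟨X, h1, h2, h3, h5, disjoint_empty_right _⟩
      | insert c D hcD ih =>
        intro hsub
        obtain ⟨X, h1, h2, h3, h4, h5⟩ := ih (fun y hy => hsub (mem_insert_of_mem hy))
        obtain ⟨Y, k1, k2, k3, k4, k5⟩ := s1 c (hsub (mem_insert_self _ _)) r hr hrC hrT t ht t'
          ht' htt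
        refine ⟨X ∩ Y, hM.inter _ _ h1 k1 ⟨t', mem_inter.2 ⟨h2, k2⟩⟩ ⟨t, hTG ht, h4, k5⟩,
          mem_inter.2 ⟨h2, k2⟩, mem_inter.2 ⟨h3, k3⟩, fun h => h4 (mem_inter.1 h).1, ?_⟩
        rw [disjoint_left]
        intro y hy hy'
        rcases mem_insert.1 hy' with rfl | h
        · exact k4 (mem_inter.1 hy).2
        · exact (disjoint_left.1 h5) (mem_inter.1 hy).1 h
    exact key C (Subset.refl _)
  -- step 3
  have s3 : ∀ t ∈ T, ∀ t' ∈ T, t ≠ t' →
      ∃ X, M X ∧ t' ∈ X ∧ G \ (C ∪ T) ⊆ X ∧ t ∉ X ∧ Disjoint X C := by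
    intro t ht t' ht' htt
    have key : ∀ D ⊆ G \ (C ∪ T), ∃ X, M X ∧ t' ∈ X ∧ D ⊆ X ∧ t ∉ X ∧ Disjoint X C := by
      intro D
      induction D using Finset.induction_on with
      | empty =>
        intro _
        obtain ⟨X, h1, h2, _, h4, h5⟩ := s2 r0 hr0G hr0C hr0T t ht t' ht' htt
        exact ⟨X, h1, h2, empty_subset _, h4, h5⟩
      | insert r D hrD ih =>
        intro hsub
        obtain ⟨X, h1, h2, h3, h4, h5⟩ := ih (fun y hy => hsub (mem_insert_of_mem hy))
        have hr := hsub (mem_insert_self r D)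
        simp only [mem_sdiff, mem_union, not_or] at hr
        obtain ⟨Y, k1, k2, k3, k4, k5⟩ := s2 r hr.1 hr.2.1 hr.2.2 t ht t' ht' htt
        refine ⟨X ∪ Y, hM.union _ _ h1 k1 ⟨t', mem_inter.2 ⟨h2, k2⟩⟩ ⟨t, hTG ht, h4, k4⟩,
          mem_union_left _ h2, ?_, ?_, ?_⟩
        · intro y hy
          rcases mem_insert.1 hy with rfl | h
          · exact mem_union_right _ k3
          · exact mem_union_left _ (h3 h)
        · simp only [mem_union, not_or]
          exact ⟨h4, k4⟩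
        · rw [disjoint_union_left]
          exact ⟨h5, k5⟩
    exact key _ (Subset.refl _)
  -- step 4
  have hoth : ∀ t' ∈ T, ∃ t ∈ T, t ≠ t' := by
    intro t' _
    by_cases h : i = t'
    · exact ⟨j, hj, fun h' => hij (h.trans h'.symm)⟩
    · exact ⟨i, hi, h⟩
  have s4 : ∀ t' ∈ T, M (insert t' (G \ (C ∪ T))) := by
    intro t' ht'
    have key : ∀ D ⊆ T.erase t', ∃ X, M X ∧ t' ∈ X ∧ G \ (C ∪ T) ⊆ X ∧ Disjoint X C ∧
        Disjoint X D := by
      intro D
      induction D using Finset.induction_on with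
      | empty =>
        intro _
        obtain ⟨t, ht, htt⟩ := hoth t' ht'
        obtain ⟨X, h1, h2, h3, _, h5⟩ := s3 t ht t' ht' htt
        exact ⟨X, h1, h2, h3, h5, disjoint_empty_right _⟩
      | insert t D htD ih =>
        intro hsub
        obtain ⟨X, h1, h2, h3, h4, h5⟩ := ih (fun y hy => hsub (mem_insert_of_mem hy))
        have ht := mem_erase.1 (hsub (mem_insert_self t D))
        obtain ⟨Y, k1, k2, k3, k4, k5⟩ := s3 t ht.2 t' ht' ht.1
        refine ⟨X ∩ Y, hM.inter _ _ h1 k1 ⟨t', mem_inter.2 ⟨h2, k2⟩⟩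
          ⟨c0, hCG hc0, fun h => (disjoint_left.1 h4) h hc0, fun h => (disjoint_left.1 k5) h hc0⟩,
          mem_inter.2 ⟨h2, k2⟩, subset_inter h3 k3, ?_, ?_⟩
        · exact disjoint_of_subset_left inter_subset_left h4
        · rw [disjoint_left]
          intro y hy hy'
          rcases mem_insert.1 hy' with rfl | h
          · exact k4 (mem_inter.1 hy).2
          · exact (disjoint_left.1 h5) (mem_inter.1 hy).1 h
    obtain ⟨X, h1, h2, h3, h4, h5⟩ := key _ (Subset.refl _)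
    have : X = insert t' (G \ (C ∪ T)) := by
      apply Subset.antisymm
      · intro y hy
        by_cases hy' : y = t'
        · exact hy' ▸ mem_insert_self _ _
        · refine mem_insert_of_mem (mem_sdiff.2 ⟨hM.sub _ h1 hy, ?_⟩)
          intro h
          rcases mem_union.1 h with h | h
          · exact (disjoint_left.1 h4) hy h
          · exact (disjoint_left.1 h5) hy (mem_erase.2 ⟨hy', h⟩)
      · exact insert_subset h2 h3
    exact this ▸ h1
  have hc0R : c0 ∉ G \ (C ∪ T) := fun h => (mem_sdiff.1 h).2 (mem_union_left _ hc0)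
  have hr0R : r0 ∈ G \ (C ∪ T) := mem_sdiff.2 ⟨hr0G, by
    simp only [mem_union, not_or]; exact ⟨hr0C, hr0T⟩⟩
  have hTc : ∀ t ∈ T, c0 ≠ t := fun t ht h => hdisj hc0 (h ▸ ht)
  have s5 : M (G \ (C ∪ T)) := by
    have h := hM.inter _ _ (s4 i hi) (s4 j hj)
      ⟨r0, mem_inter.2 ⟨mem_insert_of_mem hr0R, mem_insert_of_mem hr0R⟩⟩
      ⟨c0, hCG hc0, by
        simp only [mem_insert, not_or]; exact ⟨hTc i hi, hc0R⟩, by
        simp only [mem_insert, not_or]; exact ⟨hTc j hj, hc0R⟩⟩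
    have e : insert i (G \ (C ∪ T)) ∩ insert j (G \ (C ∪ T)) = G \ (C ∪ T) := by
      ext y
      simp only [mem_inter, mem_insert]
      constructor
      · rintro ⟨rfl | h1, h2⟩
        · rcases h2 with h2 | h2
          · exact absurd h2 hij
          · exact h2
        · exact h1
      · exact fun h => ⟨Or.inr h, Or.inr h⟩
    rwa [e] at h
  intro S
  induction S using Finset.induction_on with
  | empty => intro _; rw [union_empty]; exact s5
  | insert t S htS ih =>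
    intro hsub
    have h1 := ih (fun y hy => hsub (mem_insert_of_mem hy))
    have ht := hsub (mem_insert_self t S)
    have h2 := hM.union _ _ h1 (s4 t ht)
      ⟨r0, mem_inter.2 ⟨mem_union_left _ hr0R, mem_insert_of_mem hr0R⟩⟩
      ⟨c0, hCG hc0, by
        simp only [mem_union, not_or]
        exact ⟨hc0R, fun h => hdisj hc0 (hsub (mem_insert_of_mem h))⟩, by
        simp only [mem_insert, not_or]; exact ⟨hTc t ht, hc0R⟩⟩
    have e : G \ (C ∪ T) ∪ S ∪ insert t (G \ (C ∪ T)) = G \ (C ∪ T) ∪ insert t S := by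
      ext y
      simp only [mem_union, mem_insert]
      tauto
    rwa [e] at h2

/-- the members containing `a` and not `b` separate all other pairs, for suitable `a ≠ b` -/
theorem exists_pair (hM : Cross G M) {a0 b0 : α} (ha0 : a0 ∈ G) (hb0 : b0 ∈ G) (hab : a0 ≠ b0) :
    ∃ a ∈ G, ∃ b ∈ G, a ≠ b ∧ ∀ i ∈ G, ∀ j ∈ G, i ≠ j → i ≠ a → i ≠ b → j ≠ a → j ≠ b →
      ∃ X, M X ∧ a ∈ X ∧ b ∉ X ∧ ((i ∈ X ∧ j ∉ X) ∨ (j ∈ X ∧ i ∉ X)) := by
  classical
  by_contra hcon
  push Not at hcon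
  obtain ⟨i, hi, j, hj, hij, hia, hib, hja, hjb, hbad⟩ := hcon a0 ha0 b0 hb0 hab
  have hns : ∀ X, M X → {a0} ⊆ X → X ⊆ G.erase b0 → (i ∈ X ↔ j ∈ X) := by
    intro X hX h1 h2
    have := hbad X hX (h1 (mem_singleton_self _)) (fun h => (mem_erase.1 (h2 h)).1 rfl)
    constructor
    · intro h; by_contra h'; exact (this.1 h) |> fun k => h' k
    · intro h; by_contra h'; exact (this.2 h) |> fun k => h' k
  obtain ⟨C, T, hg, -, -, hiT, hjT⟩ := gap_exists hM (hM.single a0 ha0) (hM.cosingle b0 hb0)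
    (singleton_subset_iff.2 (mem_erase.2 ⟨hab, ha0⟩)) (singleton_nonempty _)
    ⟨b0, hb0, fun h => (mem_erase.1 h).1 rfl⟩ (mem_erase.2 ⟨hib, hi⟩)
    (fun h => hia (mem_singleton.1 h)) hns
  have hdisj : ∀ {y}, y ∈ C → y ∉ T := fun {y} h h' => (disjoint_left.1 hg.disj) h h'
  have hTG : T ⊆ G := subset_union_right.trans (hM.sub _ hg.mCT)
  have hCG : C ⊆ G := subset_union_left.trans (hM.sub _ hg.mCT)
  obtain ⟨c0, hc0⟩ := hg.hC
  obtain ⟨r0, hr0G, hr0C, hr0T⟩ := hg.hR
  have fact := gap_fact hM hg hiT hjT hij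
  -- the new pair is `(i, j)`, both in `T`
  obtain ⟨k, hk, l, hl, hkl, hki, hkj, hli, hlj, hbad'⟩ := hcon i hi j hj hij
  have hRi : ∀ {y}, y ∈ G → y ∉ C → y ∉ T → y ∈ G \ (C ∪ T) := fun {y} h1 h2 h3 =>
    mem_sdiff.2 ⟨h1, by simp only [mem_union, not_or]; exact ⟨h2, h3⟩⟩
  have hRn : ∀ {y}, y ∈ G \ (C ∪ T) → y ∈ G ∧ y ∉ C ∧ y ∉ T := fun {y} h => by
    simpa only [mem_sdiff, mem_union, not_or] using h
  -- sets of the form `R ∪ S`
  have hS : ∀ S ⊆ T, i ∈ S → j ∉ S → ((k ∈ G \ (C ∪ T) ∪ S ↔ l ∈ G \ (C ∪ T) ∪ S)) := by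
    intro S hS hiS hjS
    have h1 := hbad' _ (fact S hS) (mem_union_right _ hiS) (fun h => by
      rcases mem_union.1 h with h | h
      · exact (hRn h).2.2 hjT
      · exact hjS h)
    constructor
    · intro h; by_contra h'; exact h' (h1.1 h)
    · intro h; by_contra h'; exact h' (h1.2 h)
  have hbadiff : ∀ X, M X → i ∈ X → j ∉ X → (k ∈ X ↔ l ∈ X) := by
    intro X hX h1 h2
    have h := hbad' X hX h1 h2
    constructor
    · intro h3; by_contra h'; exact h' (h.1 h3)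
    · intro h3; by_contra h'; exact h' (h.2 h3)
  have hone := hS {i} (singleton_subset_iff.2 hiT) (mem_singleton_self _)
    (fun h => hij (mem_singleton.1 h).symm)
  simp only [mem_union, mem_singleton, hki, hli, or_false] at hone
  have hpair : ∀ y ∈ T, y ≠ j → (k ∈ G \ (C ∪ T) ∪ {i, y} ↔ l ∈ G \ (C ∪ T) ∪ {i, y}) := by
    intro y hy hyj
    refine hS {i, y} ?_ (mem_insert_self _ _) ?_
    · intro z hz
      rcases mem_insert.1 hz with rfl | h
      · exact hiT
      · exact (mem_singleton.1 h) ▸ hy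
    · intro h
      rcases mem_insert.1 h with h | h
      · exact hij h.symm
      · exact hyj (mem_singleton.1 h).symm
  by_cases hkT : k ∈ T
  · have h1 := (hpair k hkT hkj).1 (mem_union_right _ (mem_insert_of_mem (mem_singleton_self _)))
    rcases mem_union.1 h1 with h2 | h2
    · exact (hRn (hone.2 h2)).2.2 hkT
    · rcases mem_insert.1 h2 with h3 | h3
      · exact hli h3
      · exact hkl (mem_singleton.1 h3).symm
  by_cases hlT : l ∈ T
  · have h1 := (hpair l hlT hlj).2 (mem_union_right _ (mem_insert_of_mem (mem_singleton_self _)))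
    rcases mem_union.1 h1 with h2 | h2
    · exact (hRn (hone.1 h2)).2.2 hlT
    · rcases mem_insert.1 h2 with h3 | h3
      · exact hki h3
      · exact hkl (mem_singleton.1 h3)
  by_cases hkC : k ∈ C
  · -- both in `C`
    have hlC : l ∈ C := by
      by_contra hlC
      exact (hRn (hone.2 (hRi hl hlC hlT))).2.1 hkC
    have hAm : M (G \ (C ∪ T) ∪ T.erase j) := fact _ (erase_subset _ _)
    have hAB : G \ (C ∪ T) ∪ T.erase j ⊆ G.erase j := by
      intro y hy
      rcases mem_union.1 hy with h | h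
      · exact mem_erase.2 ⟨fun e => (hRn h).2.2 (e ▸ hjT), (hRn h).1⟩
      · exact mem_erase.2 ⟨(mem_erase.1 h).1, hTG (mem_erase.1 h).2⟩
    have hiA : i ∈ G \ (C ∪ T) ∪ T.erase j := mem_union_right _ (mem_erase.2 ⟨hij, hiT⟩)
    obtain ⟨C2, T2, hg2, hAC2, hCT2, hk2, hl2⟩ := gap_exists hM (i := k) (j := l) hAm
      (hM.cosingle j hj) hAB ⟨i, hiA⟩ ⟨j, hj, fun h => (mem_erase.1 h).1 rfl⟩
      (mem_erase.2 ⟨hkj, hk⟩)
      (fun h => by
        rcases mem_union.1 h with h | h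
        · exact (hRn h).2.1 hkC
        · exact hkT (mem_erase.1 h).2)
      (fun X hX h1 h2 => hbadiff X hX (h1 hiA) (fun h => (mem_erase.1 (h2 h)).1 rfl))
    have hY := gap_fact hM hg2 hk2 hl2 hkl {k} (singleton_subset_iff.2 hk2)
    have hr0A : r0 ∈ C2 := hAC2 (mem_union_left _ (hRi hr0G hr0C hr0T))
    have hZ := hM.union _ _ hY hg.mC
      ⟨k, mem_inter.2 ⟨mem_union_right _ (mem_singleton_self _), hkC⟩⟩
      ⟨r0, hr0G, fun h => by
        rcases mem_union.1 h with h | h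
        · exact (mem_sdiff.1 h).2 (mem_union_left _ hr0A)
        · exact hr0C ((mem_singleton.1 h) ▸ hkC), hr0C⟩
    have hsub : G \ (C2 ∪ T2) ∪ {k} ∪ C ⊆ C ∪ T := by
      intro y hy
      rcases mem_union.1 hy with h | h
      · rcases mem_union.1 h with h | h
        · obtain ⟨hyG, hy2⟩ := mem_sdiff.1 h
          by_cases hyC : y ∈ C
          · exact mem_union_left _ hyC
          · by_cases hyT : y ∈ T
            · exact mem_union_right _ hyT
            · exact absurd (mem_union_left _ (hAC2 (mem_union_left _ (hRi hyG hyC hyT)))) hy2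
        · exact mem_union_left _ ((mem_singleton.1 h) ▸ hkC)
      · exact mem_union_left _ h
    rcases hg.nb _ hZ subset_union_right hsub with h | h
    · have : j ∈ G \ (C2 ∪ T2) ∪ {k} ∪ C := by
        refine mem_union_left _ (mem_union_left _ (mem_sdiff.2 ⟨hj, fun h' => ?_⟩))
        exact (mem_erase.1 (hCT2 h')).1 rfl
      rw [h] at this
      exact hdisj this hjT
    · have : i ∈ G \ (C2 ∪ T2) ∪ {k} ∪ C := by
        rw [h]
        exact mem_union_right _ hiT
      rcases mem_union.1 this with h' | h'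
      · rcases mem_union.1 h' with h' | h'
        · exact (mem_sdiff.1 h').2 (mem_union_left _ (hAC2 hiA))
        · exact hki (mem_singleton.1 h').symm
      · exact hdisj h' hiT
  · -- both in `R`
    have hkR := hRi hk hkC hkT
    have hlR := hone.1 hkR
    have hBm : M (G \ (C ∪ T) ∪ {i}) := fact {i} (singleton_subset_iff.2 hiT)
    obtain ⟨C1, T1, hg1, hAC1, hCT1, hk1, hl1⟩ := gap_exists hM (i := k) (j := l)
      (hM.single i hi) hBm (singleton_subset_iff.2 (mem_union_right _ (mem_singleton_self _)))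
      (singleton_nonempty _)
      ⟨c0, hCG hc0, fun h => by
        rcases mem_union.1 h with h | h
        · exact (hRn h).2.1 hc0
        · exact hdisj hc0 ((mem_singleton.1 h) ▸ hiT)⟩
      (mem_union_left _ hkR) (fun h => hki (mem_singleton.1 h))
      (fun X hX h1 h2 => hbadiff X hX (h1 (mem_singleton_self _)) (fun h => by
        rcases mem_union.1 (h2 h) with h | h
        · exact (hRn h).2.2 hjT
        · exact hij (mem_singleton.1 h).symm))
    have hY := gap_fact hM hg1 hk1 hl1 hkl {k} (singleton_subset_iff.2 hk1)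
    have hnot : ∀ {y}, y ∈ G → y ∉ G \ (C ∪ T) → y ≠ i → y ∈ G \ (C1 ∪ T1) ∪ {k} := by
      intro y hy h1 h2
      refine mem_union_left _ (mem_sdiff.2 ⟨hy, fun h => ?_⟩)
      rcases mem_union.1 (hCT1 h) with h | h
      · exact h1 h
      · exact h2 (mem_singleton.1 h)
    have hc0Y : c0 ∈ G \ (C1 ∪ T1) ∪ {k} := hnot (hCG hc0) (fun h => (hRn h).2.1 hc0)
      (fun e => hdisj hc0 (e ▸ hiT))
    have hlY : l ∉ G \ (C1 ∪ T1) ∪ {k} := by
      intro h
      rcases mem_union.1 h with h | h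
      · exact (mem_sdiff.1 h).2 (mem_union_right _ hl1)
      · exact hkl (mem_singleton.1 h).symm
    have hZ := hM.inter _ _ hY hg.mCT
      ⟨c0, mem_inter.2 ⟨hc0Y, mem_union_left _ hc0⟩⟩
      ⟨l, hl, hlY, by simp only [mem_union, not_or]; exact (hRn hlR).2⟩
    have hCZ : C ⊆ (G \ (C1 ∪ T1) ∪ {k}) ∩ (C ∪ T) := by
      intro y hy
      exact mem_inter.2 ⟨hnot (hCG hy) (fun h => (hRn h).2.1 hy) (fun e => hdisj hy (e ▸ hiT)),
        mem_union_left _ hy⟩
    rcases hg.nb _ hZ hCZ inter_subset_right with h | h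
    · have : j ∈ (G \ (C1 ∪ T1) ∪ {k}) ∩ (C ∪ T) := mem_inter.2 ⟨hnot hj
        (fun h => (hRn h).2.2 hjT) (fun e => hij e.symm), mem_union_right _ hjT⟩
      rw [h] at this
      exact hdisj this hjT
    · have : i ∈ (G \ (C1 ∪ T1) ∪ {k}) ∩ (C ∪ T) := by
        rw [h]
        exact mem_union_right _ hiT
      rcases mem_union.1 (mem_inter.1 this).1 with h' | h'
      · exact (mem_sdiff.1 h').2 (mem_union_left _ (hAC1 (mem_singleton_self _)))
      · exact hki (mem_singleton.1 h').symm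

end Pool.Agent.P901b45e
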