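import Pool.Agent.Lib.P901b45e.Crossing

/-!
The gluing induction for functions `h(S) = f(S) - |S|` with values in `{0, 1, 2}`
(MP_901b45_co).
-/

namespace Pool.Agent.P901b45e

open Finset

variable {α : Type*} [DecidableEq α]

/-- integer submodular functions on the subsets of `G` with increments in `{-1, 0, 1}` -/
structure Sub (G : Finset α) (h : Finset α → ℤ) : Prop where
  empty : h ∅ = 0
  nonneg : ∀ A ⊆ G, 0 ≤ h A
  sub : ∀ A ⊆ G, ∀ B ⊆ G, h (A ∪ B) + h (A ∩ B) ≤ h A + h B
  up : ∀ A ⊆ G, ∀ e ∈ G, h (insert e A) ≤ h A + 1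
  down : ∀ A ⊆ G, ∀ e ∈ G, h A ≤ h (insert e A) + 1

/-- `x` solves the problem for `h`: `|x| ≤ h`, the ground set is tight, and the tight sets separate
the elements -/
structure Sol (G : Finset α) (h : Finset α → ℤ) (x : α → ℤ) : Prop where
  le : ∀ A ⊆ G, ∑ e ∈ A, x e ≤ h A
  neg_le : ∀ A ⊆ G, -∑ e ∈ A, x e ≤ h A
  tight : ∑ e ∈ G, x e = h G
  sep : ∀ i ∈ G, ∀ j ∈ G, i ≠ j → ∃ X ⊆ G, ∑ e ∈ X, x e = h X ∧
    ((i ∈ X ∧ j ∉ X) ∨ (j ∈ X ∧ i ∉ X))

variable {G : Finset α} {h : Finset α → ℤ}

/-- the greedy algorithm -/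
theorem greedy (h0 : h ∅ = 0) (G : Finset α)
    (hs : ∀ A ⊆ G, ∀ B ⊆ G, h (A ∪ B) + h (A ∩ B) ≤ h A + h B) :
    ∃ x : α → ℤ, (∀ A ⊆ G, ∑ e ∈ A, x e ≤ h A) ∧ ∑ e ∈ G, x e = h G ∧
      ∀ i ∈ G, ∀ j ∈ G, i ≠ j → ∃ X ⊆ G, ∑ e ∈ X, x e = h X ∧
        ((i ∈ X ∧ j ∉ X) ∨ (j ∈ X ∧ i ∉ X)) := by
  induction G using Finset.induction_on with
  | empty =>
    refine ⟨fun _ => 0, ?_, by simp [h0], by simp⟩
    intro A hA
    rw [subset_empty.1 hA]
    simp [h0]
  | insert e G he ih =>
    obtain ⟨x, h1, h2, h3⟩ := ih (fun A hA B hB => hs A (hA.trans (subset_insert _ _)) B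
      (hB.trans (subset_insert _ _)))
    let y : α → ℤ := Function.update x e (h (insert e G) - h G)
    have hy : ∀ A : Finset α, e ∉ A → ∑ i ∈ A, y i = ∑ i ∈ A, x i := by
      intro A hA
      apply Finset.sum_congr rfl
      intro i hi
      have : i ≠ e := fun h => hA (h ▸ hi)
      simp [y, this]
    have hye : y e = h (insert e G) - h G := by simp [y]
    have hG : ∑ i ∈ insert e G, y i = h (insert e G) := by
      rw [sum_insert he, hy G he, h2, hye]
      ring
    refine ⟨y, ?_, hG, ?_⟩
    · intro A hA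
      by_cases heA : e ∈ A
      · have h4 : A.erase e ⊆ G := by
          intro i hi
          have := hA (mem_erase.1 hi).2
          exact (mem_insert.1 this).resolve_left (mem_erase.1 hi).1
        rw [← insert_erase heA, sum_insert (notMem_erase e A), hy _ (notMem_erase e A), hye]
        have h5 := h1 _ h4
        have h6 := hs (insert e (A.erase e)) (by rw [insert_erase heA]; exact hA) G
          (subset_insert _ _)
        have e1 : insert e (A.erase e) ∪ G = insert e G := by
          ext i
          simp only [mem_union, mem_insert]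
          constructor
          · rintro ((rfl | h) | h)
            · exact Or.inl rfl
            · exact Or.inr (h4 h)
            · exact Or.inr h
          · rintro (rfl | h)
            · exact Or.inl (Or.inl rfl)
            · exact Or.inr h
        have e2 : insert e (A.erase e) ∩ G = A.erase e := by
          ext i
          simp only [mem_inter, mem_insert]
          constructor
          · rintro ⟨rfl | h, h'⟩
            · exact absurd h' he
            · exact h
          · exact fun h => ⟨Or.inr h, h4 h⟩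
        rw [e1, e2] at h6
        linarith
      · have h4 : A ⊆ G := fun i hi => (mem_insert.1 (hA hi)).resolve_left
          (fun h => heA (h ▸ hi))
        rw [hy A heA]
        exact h1 A h4
    · intro i hi j hj hij
      rcases mem_insert.1 hi with hi' | hi'
      · refine ⟨G, subset_insert _ _, by rw [hy G he, h2], Or.inr ⟨?_, hi' ▸ he⟩⟩
        exact (mem_insert.1 hj).resolve_left (fun h => hij (hi'.trans h.symm))
      rcases mem_insert.1 hj with hj' | hj'
      · exact ⟨G, subset_insert _ _, by rw [hy G he, h2], Or.inl ⟨hi', hj' ▸ he⟩⟩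
      obtain ⟨X, hX, h4, h5⟩ := h3 i hi' j hj' hij
      exact ⟨X, hX.trans (subset_insert _ _), by rw [hy X (fun h => he (hX h)), h4], h5⟩

/-- gluing along a set of value `0` -/
theorem glue (hh : Sub G h) {S : Finset α} (hS : S ⊆ G) (hS0 : h S = 0) {x y : α → ℤ}
    (hx : Sol S h x) (hy : Sol (G \ S) (fun T => h (S ∪ T)) y) :
    Sol G h (fun e => if e ∈ S then x e else y e) := by
  have hsum : ∀ A : Finset α, ∑ e ∈ A, (if e ∈ S then x e else y e) =
      ∑ e ∈ A ∩ S, x e + ∑ e ∈ A \ S, y e := by
    intro A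
    rw [← Finset.sum_inter_add_sum_sdiff A S (fun e => if e ∈ S then x e else y e)]
    congr 1
    · exact Finset.sum_congr rfl (fun e he => by simp [(mem_inter.1 he).2])
    · exact Finset.sum_congr rfl (fun e he => by simp [(mem_sdiff.1 he).2])
  have hbd : ∀ A ⊆ G, h (A ∩ S) + h (S ∪ (A \ S)) ≤ h A := by
    intro A hA
    have h1 := hh.sub A hA S hS
    have e1 : A ∪ S = S ∪ (A \ S) := by
      ext e; simp only [mem_union, mem_sdiff]; tauto
    rw [e1] at h1
    linarith
  have hxS : ∑ e ∈ S, x e = 0 := by rw [hx.tight, hS0]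
  refine ⟨?_, ?_, ?_, ?_⟩
  · intro A hA
    rw [hsum]
    have h1 := hx.le (A ∩ S) inter_subset_right
    have h2 := hy.le (A \ S) (sdiff_subset_sdiff hA (Subset.refl _))
    have h3 := hbd A hA
    linarith
  · intro A hA
    rw [hsum]
    have h1 := hx.neg_le (A ∩ S) inter_subset_right
    have h2 := hy.neg_le (A \ S) (sdiff_subset_sdiff hA (Subset.refl _))
    have h3 := hbd A hA
    linarith
  · rw [hsum, inter_eq_right.2 hS, hxS, hy.tight, union_sdiff_of_subset hS]
    ring
  · intro i hi j hj hij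
    by_cases hiS : i ∈ S
    · by_cases hjS : j ∈ S
      · obtain ⟨X, hX, h4, h5⟩ := hx.sep i hiS j hjS hij
        refine ⟨X, hX.trans hS, ?_, h5⟩
        rw [hsum, inter_eq_left.2 hX, h4, sdiff_eq_empty_iff_subset.2 hX]
        simp
      · refine ⟨S, hS, ?_, Or.inl ⟨hiS, hjS⟩⟩
        rw [hsum, inter_self, hxS, hS0, sdiff_self]
        simp
    · by_cases hjS : j ∈ S
      · refine ⟨S, hS, ?_, Or.inr ⟨hjS, hiS⟩⟩
        rw [hsum, inter_self, hxS, hS0, sdiff_self]
        simp
      · obtain ⟨X, hX, h4, h5⟩ := hy.sep i (mem_sdiff.2 ⟨hi, hiS⟩) j (mem_sdiff.2 ⟨hj, hjS⟩) hij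
        have hXS : Disjoint X S := by
          rw [disjoint_left]
          intro e he
          exact (mem_sdiff.1 (hX he)).2
        refine ⟨S ∪ X, union_subset hS (hX.trans sdiff_subset), ?_, ?_⟩
        · have e1 : (S ∪ X) ∩ S = S := inter_eq_right.2 subset_union_left
          have e2 : (S ∪ X) \ S = X := by
            ext e
            simp only [mem_sdiff, mem_union]
            constructor
            · rintro ⟨h | h, h'⟩
              · exact absurd h h'
              · exact h
            · exact fun h => ⟨Or.inr h, (disjoint_left.1 hXS) h⟩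
          rw [hsum, e1, e2, hxS, h4]
          simp
        · simp only [mem_union, hiS, hjS, false_or]
          exact h5

/-- restriction -/
theorem Sub.restrict (hh : Sub G h) {S : Finset α} (hS : S ⊆ G) : Sub S h :=
  ⟨hh.empty, fun A hA => hh.nonneg A (hA.trans hS), fun A hA B hB => hh.sub A (hA.trans hS) B
    (hB.trans hS), fun A hA e he => hh.up A (hA.trans hS) e (hS he), fun A hA e he =>
    hh.down A (hA.trans hS) e (hS he)⟩

/-- contraction of a set of value `0` -/
theorem Sub.contract (hh : Sub G h) {S : Finset α} (hS : S ⊆ G) (hS0 : h S = 0) :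
    Sub (G \ S) (fun T => h (S ∪ T)) := by
  have hu : ∀ {A}, A ⊆ G \ S → S ∪ A ⊆ G := fun {A} hA => union_subset hS (hA.trans sdiff_subset)
  refine ⟨by simpa using hS0, fun A hA => hh.nonneg _ (hu hA), ?_, ?_, ?_⟩
  · intro A hA B hB
    have h1 := hh.sub _ (hu hA) _ (hu hB)
    have e1 : (S ∪ A) ∪ (S ∪ B) = S ∪ (A ∪ B) := by
      ext e; simp only [mem_union]; tauto
    have e2 : (S ∪ A) ∩ (S ∪ B) = S ∪ (A ∩ B) := by
      ext e; simp only [mem_union, mem_inter]; tauto
    rw [e1, e2] at h1
    exact h1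
  · intro A hA e he
    have h1 := hh.up _ (hu hA) e (mem_sdiff.1 he).1
    have e1 : insert e (S ∪ A) = S ∪ insert e A := by
      ext y; simp only [mem_union, mem_insert]; tauto
    rw [e1] at h1
    exact h1
  · intro A hA e he
    have h1 := hh.down _ (hu hA) e (mem_sdiff.1 he).1
    have e1 : insert e (S ∪ A) = S ∪ insert e A := by
      ext y; simp only [mem_union, mem_insert]; tauto
    rw [e1] at h1
    exact h1

/-- sums of an indicator function -/
theorem sum_ind (A : Finset α) (p : α) : (∑ e ∈ A, if e = p then (1 : ℤ) else 0) =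
    if p ∈ A then 1 else 0 := by
  rw [Finset.sum_ite_eq']

/-- the vector `e_p + e_p' - e_q - e_q'` -/
def vec (p p' q q' : α) (e : α) : ℤ :=
  (if e = p then 1 else 0) + (if e = p' then 1 else 0) - (if e = q then 1 else 0)
    - (if e = q' then 1 else 0)

theorem sum_vec (A : Finset α) (p p' q q' : α) : ∑ e ∈ A, vec p p' q q' e =
    (if p ∈ A then 1 else 0) + (if p' ∈ A then 1 else 0) - (if q ∈ A then 1 else 0)
      - (if q' ∈ A then 1 else 0) := by
  unfold vec
  rw [Finset.sum_sub_distrib, Finset.sum_sub_distrib, Finset.sum_add_distrib]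
  simp only [sum_ind]

/-- the vector `e_a - e_b` -/
def root (a b : α) (e : α) : ℤ := (if e = a then 1 else 0) - (if e = b then 1 else 0)

theorem sum_root (A : Finset α) (a b : α) : ∑ e ∈ A, root a b e =
    (if a ∈ A then 1 else 0) - (if b ∈ A then 1 else 0) := by
  unfold root
  rw [Finset.sum_sub_distrib]
  simp only [sum_ind]

/-- the case of a vector `e_p + e_p' - e_q - e_q'` below `h ≤ 2` -/
theorem sol_four (hh : Sub G h) (h2 : ∀ A ⊆ G, h A ≤ 2) (hG : h G = 0) {p p' q q' : α}
    (hp : p ∈ G) (hp' : p' ∈ G) (hq : q ∈ G) (hq' : q' ∈ G) (hpp : p ≠ p') (hqq : q ≠ q')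
    (hpq : p ≠ q) (hpq' : p ≠ q') (hp'q : p' ≠ q) (hp'q' : p' ≠ q')
    (h3 : ∀ A ⊆ G, ∑ e ∈ A, vec p p' q q' e ≤ h A ∧ -∑ e ∈ A, vec p p' q q' e ≤ h A) :
    Sol G h (vec p p' q q') := by
  have hle1 : ∀ a ∈ G, h {a} ≤ 1 := by
    intro a ha
    have := hh.up ∅ (empty_subset _) a ha
    rw [hh.empty] at this
    simpa using this
  have hle2 : ∀ b ∈ G, h (G.erase b) ≤ 1 := by
    intro b hb
    have := hh.down (G.erase b) (erase_subset _ _) b hb
    rw [insert_erase hb, hG] at this
    linarith
  have hP : ∀ A ⊆ G, q ∉ A → q' ∉ A → p ∈ A → p' ∈ A → ∑ e ∈ A, vec p p' q q' e = h A := by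
    intro A hA a1 a2 a3 a4
    have h4 := h2 A hA
    have h5 := (h3 A hA).1
    rw [sum_vec, if_pos a3, if_pos a4, if_neg a1, if_neg a2] at h5 ⊢
    linarith
  have hs : ∀ a, (a = p ∨ a = p') → ∑ e ∈ {a}, vec p p' q q' e = h {a} := by
    intro a ha
    have haG : a ∈ G := by rcases ha with rfl | rfl <;> assumption
    have h4 := hle1 a haG
    have h5 := (h3 {a} (singleton_subset_iff.2 haG)).1
    have h6 : ∑ e ∈ ({a} : Finset α), vec p p' q q' e = 1 := by
      rw [sum_vec]
      simp only [mem_singleton]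
      rcases ha with rfl | rfl
      · simp [Ne.symm hpp, Ne.symm hpq, Ne.symm hpq']
      · simp [hpp, Ne.symm hp'q, Ne.symm hp'q']
    rw [h6] at h5 ⊢
    linarith
  have hc : ∀ b, (b = q ∨ b = q') → ∑ e ∈ G.erase b, vec p p' q q' e = h (G.erase b) := by
    intro b hb
    have hbG : b ∈ G := by rcases hb with rfl | rfl <;> assumption
    have h4 := hle2 b hbG
    have h5 := (h3 (G.erase b) (erase_subset _ _)).1
    have h6 : ∑ e ∈ G.erase b, vec p p' q q' e = 1 := by
      rw [sum_vec]
      simp only [mem_erase]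
      rcases hb with rfl | rfl
      · simp [hp, hp', hq', Ne.symm hqq, hpq, hp'q]
      · simp [hp, hp', hq, hqq, hpq', hp'q']
    rw [h6] at h5 ⊢
    linarith
  refine ⟨fun A hA => (h3 A hA).1, fun A hA => (h3 A hA).2, ?_, ?_⟩
  · rw [sum_vec, if_pos hp, if_pos hp', if_pos hq, if_pos hq', hG]
    norm_num
  · intro i hi j hj hij
    by_cases hiP : i = p ∨ i = p'
    · exact ⟨{i}, singleton_subset_iff.2 hi, hs i hiP, Or.inl ⟨mem_singleton_self _,
        fun h => hij (mem_singleton.1 h).symm⟩⟩
    by_cases hjP : j = p ∨ j = p'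
    · exact ⟨{j}, singleton_subset_iff.2 hj, hs j hjP, Or.inr ⟨mem_singleton_self _,
        fun h => hij (mem_singleton.1 h)⟩⟩
    by_cases hiQ : i = q ∨ i = q'
    · exact ⟨G.erase i, erase_subset _ _, hc i hiQ, Or.inr ⟨mem_erase.2 ⟨Ne.symm hij, hj⟩,
        fun h => (mem_erase.1 h).1 rfl⟩⟩
    by_cases hjQ : j = q ∨ j = q'
    · exact ⟨G.erase j, erase_subset _ _, hc j hjQ, Or.inl ⟨mem_erase.2 ⟨hij, hi⟩,
        fun h => (mem_erase.1 h).1 rfl⟩⟩
    push Not at hiP hjP hiQ hjQ
    refine ⟨{p, p', i}, ?_, hP _ ?_ ?_ ?_ ?_ ?_, Or.inl ⟨by simp, ?_⟩⟩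
    · intro y hy
      simp only [mem_insert, mem_singleton] at hy
      rcases hy with rfl | rfl | rfl <;> assumption
    · intro y hy
      simp only [mem_insert, mem_singleton] at hy
      rcases hy with rfl | rfl | rfl <;> assumption
    · simp only [mem_insert, mem_singleton, not_or]
      exact ⟨Ne.symm hpq, Ne.symm hp'q, Ne.symm hiQ.1⟩
    · simp only [mem_insert, mem_singleton, not_or]
      exact ⟨Ne.symm hpq', Ne.symm hp'q', Ne.symm hiQ.2⟩
    · simp
    · simp
    · simp only [mem_insert, mem_singleton, not_or]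
      exact ⟨hjP.1, hjP.2, Ne.symm hij⟩

/-- the main theorem for functions `h`: `h ≤ 2`, or `h(G) = 0` and no vector with four nonzero
entries lies below `h` -/
theorem main (n : ℕ) : ∀ (G : Finset α) (h : Finset α → ℤ), G.card = n → Sub G h →
    (∀ A ⊆ G, h A ≤ 2) → ∃ x, Sol G h x := by
  induction n using Nat.strong_induction_on with
  | _ n ih =>
  intro G h hn hh h2
  by_cases hred : ∃ S ⊆ G, S ≠ ∅ ∧ S ≠ G ∧ h S = 0
  · obtain ⟨S, hS, hS1, hS2, hS0⟩ := hred
    have hSG : S ⊂ G := lt_of_le_of_ne hS hS2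
    obtain ⟨x, hx⟩ := ih S.card (hn ▸ card_lt_card hSG) S h rfl (hh.restrict hS)
      (fun A hA => h2 A (hA.trans hS))
    have hlt : (G \ S).card < G.card := by
      apply card_lt_card
      refine lt_of_le_of_ne sdiff_subset (fun e => ?_)
      obtain ⟨s, hs⟩ := nonempty_iff_ne_empty.2 hS1
      have := hS hs
      rw [← e] at this
      exact (mem_sdiff.1 this).2 hs
    obtain ⟨y, hy⟩ := ih (G \ S).card (hn ▸ hlt) (G \ S) (fun T => h (S ∪ T)) rfl
      (hh.contract hS hS0) (fun A hA => h2 _ (union_subset hS (hA.trans sdiff_subset)))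
    exact ⟨_, glue hh hS hS0 hx hy⟩
  push Not at hred
  have hirr : ∀ A ⊆ G, A ≠ ∅ → A ≠ G → 1 ≤ h A := by
    intro A hA h3 h4
    have h5 := hh.nonneg A hA
    have h6 := hred A hA (nonempty_iff_ne_empty.2 h3) h4
    omega
  by_cases hG : h G = 0
  · by_cases hcard : G.card ≤ 1
    · refine ⟨fun _ => 0, ?_, ?_, by simp [hG], ?_⟩
      · intro A hA; simpa using hh.nonneg A hA
      · intro A hA; simpa using hh.nonneg A hA
      · intro i hi j hj hij
        exact absurd (card_le_one.1 hcard i hi j hj) hij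
    · by_cases hfour : ∃ p ∈ G, ∃ p' ∈ G, ∃ q ∈ G, ∃ q' ∈ G, p ≠ p' ∧ q ≠ q' ∧ p ≠ q ∧ p ≠ q' ∧
        p' ≠ q ∧ p' ≠ q' ∧ ∀ A ⊆ G, ∑ e ∈ A, vec p p' q q' e ≤ h A ∧
          -∑ e ∈ A, vec p p' q q' e ≤ h A
      · obtain ⟨p, hp, p', hp', q, hq, q', hq', a1, a2, a3, a4, a5, a6, h3⟩ := hfour
        exact ⟨_, sol_four hh h2 hG hp hp' hq hq' a1 a2 a3 a4 a5 a6 h3⟩
      · push Not at hfour
        obtain ⟨a0, ha0, b0, hb0, hab0⟩ := one_lt_card.1 (not_le.1 hcard)
        have hle1 : ∀ a ∈ G, h {a} ≤ 1 := by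
          intro a ha
          have := hh.up ∅ (empty_subset _) a ha
          rw [hh.empty] at this
          simpa using this
        have hle2 : ∀ b ∈ G, h (G.erase b) ≤ 1 := by
          intro b hb
          have := hh.down (G.erase b) (erase_subset _ _) b hb
          rw [insert_erase hb, hG] at this
          linarith
        have hother : ∀ a ∈ G, ∃ b ∈ G, b ≠ a := by
          intro a _
          by_cases h3 : a = a0
          · exact ⟨b0, hb0, fun h4 => hab0 (h3.symm.trans h4.symm)⟩
          · exact ⟨a0, ha0, fun h4 => h3 h4.symm⟩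
        have hM : Cross G (fun X => X ⊆ G ∧ X ≠ ∅ ∧ X ≠ G ∧ h X = 1) := by
          have hone : ∀ X Y, (X ⊆ G ∧ X ≠ ∅ ∧ X ≠ G ∧ h X = 1) →
              (Y ⊆ G ∧ Y ≠ ∅ ∧ Y ≠ G ∧ h Y = 1) → (X ∩ Y).Nonempty →
              (∃ r ∈ G, r ∉ X ∧ r ∉ Y) → (X ∩ Y ≠ G ∧ X ∪ Y ≠ G ∧ h (X ∩ Y) = 1 ∧
                h (X ∪ Y) = 1) := by
            intro X Y hX hY hne hr
            obtain ⟨r, hr, hrX, hrY⟩ := hr
            have b1 : X ∩ Y ≠ G := fun e => hrX (mem_inter.1 (e ▸ hr : r ∈ X ∩ Y)).1
            have b2 : X ∪ Y ≠ G := fun e => by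
              have : r ∈ X ∪ Y := e ▸ hr
              rcases mem_union.1 this with h | h
              · exact hrX h
              · exact hrY h
            have b3 : X ∪ Y ≠ ∅ := by
              obtain ⟨s, hs⟩ := hne
              exact ne_empty_of_mem (mem_union_left _ (mem_inter.1 hs).1)
            have b4 := hirr (X ∩ Y) (inter_subset_left.trans hX.1) (nonempty_iff_ne_empty.1 hne) b1
            have b5 := hirr (X ∪ Y) (union_subset hX.1 hY.1) b3 b2
            have b6 := hh.sub X hX.1 Y hY.1
            rw [hX.2.2.2, hY.2.2.2] at b6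
            exact ⟨b1, b2, by omega, by omega⟩
          refine ⟨fun X hX => hX.1, ?_, ?_, ?_, ?_, ?_⟩
          · intro X Y hX hY hne hr
            obtain ⟨b1, b2, b3, b4⟩ := hone X Y hX hY hne hr
            exact ⟨inter_subset_left.trans hX.1, nonempty_iff_ne_empty.1 hne, b1, b3⟩
          · intro X Y hX hY hne hr
            obtain ⟨b1, b2, b3, b4⟩ := hone X Y hX hY hne hr
            refine ⟨union_subset hX.1 hY.1, ?_, b2, b4⟩
            obtain ⟨s, hs⟩ := hne
            exact ne_empty_of_mem (mem_union_left _ (mem_inter.1 hs).1)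
          · intro a ha
            obtain ⟨b, hb, hba⟩ := hother a ha
            have c1 : ({a} : Finset α) ≠ G := fun e => hba (mem_singleton.1 (e ▸ hb : b ∈ {a}))
            have c2 := hirr {a} (singleton_subset_iff.2 ha) (singleton_ne_empty a) c1
            exact ⟨singleton_subset_iff.2 ha, singleton_ne_empty a, c1, by
              have := hle1 a ha; omega⟩
          · intro a ha
            obtain ⟨b, hb, hba⟩ := hother a ha
            have c1 : G.erase a ≠ G := fun e => (mem_erase.1 (e.symm ▸ ha : a ∈ G.erase a)).1 rfl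
            have c0 : G.erase a ≠ ∅ := ne_empty_of_mem (mem_erase.2 ⟨hba, hb⟩)
            have c2 := hirr (G.erase a) (erase_subset _ _) c0 c1
            exact ⟨erase_subset _ _, c0, c1, by have := hle2 a ha; omega⟩
          · intro p hp p' hp' q hq q' hq' a1 a2 a3 a4 a5 a6
            obtain ⟨A, hA, hA'⟩ := hfour p hp p' hp' q hq q' hq' a1 a2 a3 a4 a5 a6
            have hA0 : A ≠ ∅ := by
              rintro rfl
              have := hA' (by simp [hh.empty])
              simp [hh.empty] at this
            have hA1 : A ≠ G := by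
              rintro rfl
              have e1 : ∑ e ∈ A, vec p p' q q' e = 0 := by
                rw [sum_vec, if_pos hp, if_pos hp', if_pos hq, if_pos hq']; norm_num
              have := hA' (by rw [e1, hG])
              rw [e1, hG] at this
              simp at this
            have hA2 := hirr A hA hA0 hA1
            rw [sum_vec] at hA'
            refine ⟨A, ⟨hA, hA0, hA1, ?_⟩, ?_⟩
            · by_contra hne
              have hA3 : 2 ≤ h A := by omega
              have := hA' (by split_ifs <;> omega)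
              revert this
              split_ifs <;> omega
            · by_cases m1 : p ∈ A <;> by_cases m2 : p' ∈ A <;> by_cases m3 : q ∈ A <;>
                by_cases m4 : q' ∈ A <;> simp only [m1, m2, m3, m4, if_true, if_false] at hA' ⊢ <;>
                first
                | (simp; done)
                | (exfalso; have := hA' (by omega); omega)
        obtain ⟨a, ha, b, hb, hab, hsep⟩ := exists_pair hM ha0 hb0 hab0
        refine ⟨root a b, ?_, ?_, ?_, ?_⟩
        · intro A hA
          rw [sum_root]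
          by_cases hA0 : A = ∅
          · subst hA0; simp [hh.empty]
          by_cases hA1 : A = G
          · subst hA1; simp [ha, hb, hG]
          have := hirr A hA hA0 hA1
          split_ifs <;> omega
        · intro A hA
          rw [sum_root]
          by_cases hA0 : A = ∅
          · subst hA0; simp [hh.empty]
          by_cases hA1 : A = G
          · subst hA1; simp [ha, hb, hG]
          have := hirr A hA hA0 hA1
          split_ifs <;> omega
        · rw [sum_root]; simp [ha, hb, hG]
        · intro i hi j hj hij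
          have ta : ∑ e ∈ ({a} : Finset α), root a b e = h {a} := by
            rw [sum_root, (hM.single a ha).2.2.2]; simp [Ne.symm hab]
          have tb : ∑ e ∈ G.erase b, root a b e = h (G.erase b) := by
            rw [sum_root, (hM.cosingle b hb).2.2.2]; simp [hab, ha]
          by_cases h3 : i = a
          · exact ⟨{a}, singleton_subset_iff.2 ha, ta, Or.inl ⟨mem_singleton.2 h3,
              fun h4 => hij (h3.trans (mem_singleton.1 h4).symm)⟩⟩
          by_cases h4 : j = a
          · exact ⟨{a}, singleton_subset_iff.2 ha, ta, Or.inr ⟨mem_singleton.2 h4,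
              fun h5 => h3 (mem_singleton.1 h5)⟩⟩
          by_cases h5 : i = b
          · exact ⟨G.erase b, erase_subset _ _, tb, Or.inr ⟨mem_erase.2
              ⟨fun h6 => hij (h5.trans h6.symm), hj⟩, fun h6 => (mem_erase.1 h6).1 h5⟩⟩
          by_cases h6 : j = b
          · exact ⟨G.erase b, erase_subset _ _, tb, Or.inl ⟨mem_erase.2 ⟨h5, hi⟩,
              fun h7 => (mem_erase.1 h7).1 h6⟩⟩
          obtain ⟨X, hX, hXa, hXb, hX'⟩ := hsep i hi j hj hij h3 h5 h4 h6
          refine ⟨X, hX.1, ?_, hX'⟩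
          rw [sum_root, if_pos hXa, if_neg hXb, hX.2.2.2]
          norm_num
  · -- `h G > 0`: any greedy vector
    obtain ⟨x, hx1, hx2, hx3⟩ := greedy hh.empty G hh.sub
    refine ⟨x, hx1, ?_, hx2, hx3⟩
    intro A hA
    have hGpos : 1 ≤ h G := by
      have := hh.nonneg G (Subset.refl _)
      omega
    by_cases hA0 : A = ∅
    · subst hA0; simp [hh.empty]
    by_cases hA1 : A = G
    · subst hA1; rw [hx2]; omega
    have h3 := hirr A hA hA0 hA1
    have h4 := hx1 (G \ A) sdiff_subset
    have h5 := h2 (G \ A) sdiff_subset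
    have h6 : ∑ e ∈ G \ A, x e + ∑ e ∈ A, x e = ∑ e ∈ G, x e := Finset.sum_sdiff hA
    rw [hx2] at h6
    linarith

end Pool.Agent.P901b45e
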